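import Pool.Agent.H34.GM.Targets

/-!
# Row CHP: integrality of the characteristic polynomial of an element of an order
-/

set_option autoImplicit false

open Polynomial Kronecker
open Finset.HasAntidiagonal (antidiagonal mem_antidiagonal)

namespace Pool.Agent.H34.GM

/-! ### A monic polynomial with a rational power is rational -/

/-- power series form: constant coefficient one, the power is rational -/
theorem chp_rat_aux (F : ℝ[X]) (m : ℕ) (hm : 1 ≤ m) (h0 : F.coeff 0 = 1)
    (hG : ∀ n, ∃ a : ℚ, (F ^ m).coeff n = a) (j : ℕ) : ∃ a : ℚ, F.coeff j = a := by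
  induction j using Nat.strong_induction_on with
  | _ j ih =>
    rcases Nat.eq_zero_or_pos j with hj | hj
    · subst hj
      exact ⟨1, by rw [h0]; simp⟩
    · obtain ⟨i, rfl⟩ : ∃ i, j = i + 1 := ⟨j - 1, by omega⟩
      set G : ℝ[X] := F ^ m with hGdef
      have hder : F * derivative G = C (m : ℝ) * (G * derivative F) := by
        rw [hGdef, derivative_pow]
        obtain ⟨k, rfl⟩ : ∃ k, m = k + 1 := ⟨m - 1, by omega⟩
        rw [Nat.add_sub_cancel]
        ring
      have hco : (F * derivative G).coeff i = m * (G * derivative F).coeff i := by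
        rw [hder, coeff_C_mul]
      rw [coeff_mul, coeff_mul] at hco
      simp only [coeff_derivative] at hco
      have hG0 : G.coeff 0 = 1 := by
        rw [hGdef, coeff_zero_eq_eval_zero, eval_pow, ← coeff_zero_eq_eval_zero, h0, one_pow]
      -- the left side is rational
      have hL : ∃ a : ℚ, ∑ x ∈ antidiagonal i, F.coeff x.1 * (G.coeff (x.2 + 1) *
          ((x.2 : ℝ) + 1)) = a := by
        choose g hg using hG
        have hF : ∀ x ∈ antidiagonal i, ∃ a : ℚ, F.coeff x.1 * (G.coeff (x.2 + 1) *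
          ((x.2 : ℝ) + 1)) = a := by
          intro x hx
          rw [mem_antidiagonal] at hx
          obtain ⟨a, ha⟩ := ih x.1 (by omega)
          exact ⟨a * (g (x.2 + 1) * ((x.2 : ℚ) + 1)), by rw [ha, hg]; push_cast; ring⟩
        choose! f hf using hF
        exact ⟨∑ x ∈ antidiagonal i, f x, by
          rw [Rat.cast_sum]
          exact Finset.sum_congr rfl hf⟩
      obtain ⟨a, ha⟩ := hL
      -- the right side
      have hmem : ((0, i) : ℕ × ℕ) ∈ antidiagonal i := by simp
      have hS := Finset.add_sum_erase (antidiagonal i)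
        (fun x => G.coeff x.1 * (F.coeff (x.2 + 1) * ((x.2 : ℝ) + 1))) hmem
      simp only at hS
      have hR : ∃ b : ℚ, ∑ x ∈ (antidiagonal i).erase (0, i), G.coeff x.1 *
          (F.coeff (x.2 + 1) * ((x.2 : ℝ) + 1)) = b := by
        choose g hg using hG
        have hF : ∀ x ∈ (antidiagonal i).erase (0, i), ∃ a : ℚ, G.coeff x.1 *
          (F.coeff (x.2 + 1) * ((x.2 : ℝ) + 1)) = a := by
          intro x hx
          rw [Finset.mem_erase, mem_antidiagonal] at hx
          have hx2 : x.2 < i := by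
            rcases Nat.lt_or_ge x.2 i with h | h
            · exact h
            · exfalso
              apply hx.1
              ext <;> simp <;> omega
          obtain ⟨a, ha⟩ := ih (x.2 + 1) (by omega)
          exact ⟨g x.1 * (a * ((x.2 : ℚ) + 1)), by rw [ha, hg]; push_cast; ring⟩
        choose! f hf using hF
        exact ⟨∑ x ∈ (antidiagonal i).erase (0, i), f x, by
          rw [Rat.cast_sum]
          exact Finset.sum_congr rfl hf⟩
      obtain ⟨b, hb⟩ := hR
      rw [ha, ← hS, hb, hG0] at hco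
      have hm0 : (m : ℝ) ≠ 0 := by positivity
      have hi0 : ((i : ℝ) + 1) ≠ 0 := by positivity
      refine ⟨(a / m - b) / ((i : ℚ) + 1), ?_⟩
      push_cast
      field_simp
      linear_combination -hco

theorem chp_rat (f : ℝ[X]) (hf : f.Monic) (m : ℕ) (hm : 1 ≤ m)
    (hG : ∀ n, ∃ a : ℚ, (f ^ m).coeff n = a) (j : ℕ) : ∃ a : ℚ, f.coeff j = a := by
  have hrev : ∀ k : ℕ, (f ^ k).reverse = f.reverse ^ k := by
    intro k
    induction k with
    | zero => rw [pow_zero, pow_zero, ← C_1, reverse_C]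
    | succ k ih => rw [pow_succ, reverse_mul_of_domain, ih, pow_succ]
  have h1 := chp_rat_aux f.reverse m hm (by rw [coeff_zero_reverse]; exact hf) (by
    intro n
    rw [← hrev, coeff_reverse]
    exact hG _)
  obtain ⟨a, ha⟩ := h1 (revAt f.natDegree j)
  rw [coeff_reverse, revAt_invol] at ha
  exact ⟨a, ha⟩

/-- a monic polynomial with an integral power is integral -/
theorem chp_int (f : ℝ[X]) (hf : f.Monic) (m : ℕ) (hm : 1 ≤ m) (P : ℤ[X])
    (hP : P.map (Int.castRingHom ℝ) = f ^ m) :
    ∃ p : ℤ[X], p.map (Int.castRingHom ℝ) = f := by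
  have hPm : P.Monic := by
    have h1 : (P.map (Int.castRingHom ℝ)).Monic := by rw [hP]; exact hf.pow m
    exact Polynomial.monic_of_injective (RingHom.injective_int _) h1
  have hint : ∀ j, IsIntegral ℤ (f.coeff j) := by
    have h1 := integralClosure.mem_lifts_of_monic_of_dvd_map ℝ hPm hf (by
      rw [algebraMap_int_eq, hP]
      exact dvd_pow_self f (by omega))
    rw [lifts_iff_coeff_lifts] at h1
    intro j
    obtain ⟨y, hy⟩ := h1 j
    rw [← hy]
    exact y.2
  have hrat : ∀ j, ∃ a : ℚ, f.coeff j = a := by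
    refine chp_rat f hf m hm fun n => ⟨(P.coeff n : ℚ), ?_⟩
    rw [← hP, coeff_map]
    simp
  have hlift : f ∈ lifts (Int.castRingHom ℝ) := by
    rw [lifts_iff_coeff_lifts]
    intro j
    obtain ⟨a, ha⟩ := hrat j
    have h1 := hint j
    rw [ha] at h1
    have h2 : IsIntegral ℤ a := by
      have : ((a : ℚ) : ℝ) = algebraMap ℚ ℝ a := rfl
      rw [this] at h1
      exact (isIntegral_algebraMap_iff (algebraMap ℚ ℝ).injective).1 h1
    obtain ⟨z, hz⟩ := IsIntegrallyClosed.isIntegral_iff.1 h2
    refine ⟨z, ?_⟩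
    rw [ha, ← hz]
    simp
  obtain ⟨p, hp⟩ := (mem_lifts _).1 hlift
  exact ⟨p, hp⟩

/-! ### Left multiplication -/

theorem chp_kron (m : ℕ) (α : Mat m) :
    (LinearMap.toMatrix (Matrix.stdBasis ℝ (Fin m) (Fin m)) (Matrix.stdBasis ℝ (Fin m) (Fin m))
      (LinearMap.mulLeft ℝ α)) = α ⊗ₖ (1 : Matrix (Fin m) (Fin m) ℝ) := by
  ext ⟨i, j⟩ ⟨k, l⟩
  rw [LinearMap.toMatrix_apply, Matrix.stdBasis_eq_single, LinearMap.mulLeft_apply]
  have h1 : ∀ x : Mat m, (Matrix.stdBasis ℝ (Fin m) (Fin m)).repr x (i, j) = x i j := by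
    intro x
    simp [Matrix.stdBasis]
  rw [h1, Matrix.kronecker_apply, Matrix.mul_apply]
  rw [Finset.sum_eq_single k]
  · by_cases h : l = j
    · subst h
      simp
    · rw [Matrix.single_apply, Matrix.one_apply]
      simp [h, Ne.symm h]
  · intro b _ hb
    rw [Matrix.single_apply]
    simp [Ne.symm hb]
  · intro h
    exact absurd (Finset.mem_univ _) h

theorem chp_charpoly_kron (m : ℕ) (α : Mat m) :
    (α ⊗ₖ (1 : Matrix (Fin m) (Fin m) ℝ)).charpoly = α.charpoly ^ m := by
  have h1 : (α ⊗ₖ (1 : Matrix (Fin m) (Fin m) ℝ)).charmatrix =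
      α.charmatrix ⊗ₖ (1 : Matrix (Fin m) (Fin m) ℝ[X]) := by
    ext ⟨i, j⟩ ⟨k, l⟩
    simp only [Matrix.charmatrix_apply, Matrix.kronecker_apply, Matrix.diagonal_apply,
      Matrix.one_apply, Prod.mk.injEq]
    by_cases h1 : i = k <;> by_cases h2 : j = l <;> simp [h1, h2]
  unfold Matrix.charpoly
  rw [h1, Matrix.det_kronecker]
  simp

theorem chp_mulLeft (m : ℕ) (α : Mat m) :
    (LinearMap.mulLeft ℝ α : Mat m →ₗ[ℝ] Mat m).charpoly = α.charpoly ^ m := by
  rw [← LinearMap.charpoly_toMatrix _ (Matrix.stdBasis ℝ (Fin m) (Fin m)), chp_kron,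
    chp_charpoly_kron]

/-- (CHP) -/
theorem pf_CHP : T_CHP := by
  intro m O b hm hO α hα
  -- the basis is contained in the order
  have hb : ∀ j, b j ∈ O := by
    intro j
    rw [hO.lat]
    intro i
    rw [Module.Basis.repr_self]
    by_cases h : j = i
    · exact ⟨1, by simp [h]⟩
    · exact ⟨0, by rw [Finsupp.single_apply, if_neg h]; simp⟩
  have hent : ∀ i j, ∃ n : ℤ, LinearMap.toMatrix b b (LinearMap.mulLeft ℝ α) i j = n := by
    intro i j
    rw [LinearMap.toMatrix_apply, LinearMap.mulLeft_apply]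
    exact (hO.lat _).1 (O.mul_mem hα (hb j)) i
  choose A hA using hent
  have hmap : LinearMap.toMatrix b b (LinearMap.mulLeft ℝ α) =
      (Int.castRingHom ℝ).mapMatrix (Matrix.of A) := by
    ext i j
    rw [hA]
    simp
  have h1 : ((Matrix.of A).charpoly).map (Int.castRingHom ℝ) = α.charpoly ^ m := by
    rw [← Matrix.charpoly_map, ← chp_mulLeft, ← LinearMap.charpoly_toMatrix _ b, hmap]
    rfl
  exact chp_int α.charpoly (Matrix.charpoly_monic α) m hm _ h1

end Pool.Agent.H34.GM
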