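import Pool.Agent.H53.GM.Targets2

/-!
# Row DZS: the six and the two systems are systems of types
-/

set_option autoImplicit false

namespace Pool.Agent.H72.GM

open Pool.Agent.H68.BP Pool.Agent.H58.SF Pool.Agent.H53.GC Pool.Agent.H53.GR Pool.Agent.H53.GM
open Classical

variable {τ : Sig} {N k L : ℕ} {W : Type}

theorem imgeq {α β : Type} (i1 i2 : DecidableEq β) (f : α → β) (g : Finset α) :
    @Finset.image α β i1 f g = @Finset.image α β i2 f g := by
  rw [Subsingleton.elim i1 i2]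

theorem vr_image (C : Sy (Fin k × Rg L) (Kd τ N k) W) (g : Finset W) :
    vr (g.image C.pt) = g.image (fun x => (C.pt x).1) := by
  unfold vr
  rw [Finset.image_image]
  rfl

/-- The common part of the two cases. -/
theorem gen (F : Set (Str τ (Fin N))) (I : Finset (Fin k)) (a₀ : Ty τ N (Fin k))
    (C : Sy (Fin k × Rg L) (Kd τ N k) W) (h0 : ∃ P, Mx F P ∧ rse I P = a₀)
    (hC : IsSys (gC L F I a₀) C) (sel : Kd τ N k → Ty τ N (Fin k))
    (bad A : Finset (Fin k × Rg L) → Prop)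
    (hA : ∀ α, A α → bad α) (hm : ∀ α β, bad α → α ⊆ β → bad β)
    (hr : ∀ α κ, α ≠ ∅ → ¬ A α → sel (rsG I a₀ α κ) = rse (vr α ∪ I) (sel κ))
    (hr0 : ∀ κ, sel (rsG I a₀ (∅ : Finset (Fin k × Rg L)) κ) = a₀)
    (hk : ∀ α κ, OkG F I a₀ α κ → ¬ A α →
      (∃ P, Mx F P ∧ rse (vr α ∪ I) P = sel κ) ∧ rse I (sel κ) = a₀)
    (hk0 : sel (fun _ => a₀, fun _ => a₀) = a₀) :
    IsSys (bC F I) (⟨fun x => (C.pt x).1,
      fun g t => ∃ κ, C.gd g κ ∧ ¬ bad (g.image C.pt) ∧ t = sel κ⟩ :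
        Sy (Fin k) (Ty τ N (Fin k)) W) := by
  obtain ⟨P₀, hP₀, hP₀'⟩ := h0
  have ha0 : rse I a₀ = a₀ := by
    rw [← hP₀', rse_rse (Finset.Subset.refl I)]
  have hImg : ∀ g : Finset W, g.image C.pt = ∅ → g = ∅ := fun g h => Finset.image_eq_empty.1 h
  have hdn : ∀ (g : Finset W) κ g', C.gd g κ → g' ⊆ g →
      C.gd g' (rsG I a₀ (g'.image C.pt) κ) := by
    intro g κ g' h hs
    have h1 := hC.dn g κ g' h hs
    rw [imgeq _ instDecidableEqProd C.pt g'] at h1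
    exact h1
  have hok : ∀ (g : Finset W) κ, C.gd g κ → (g.image C.pt = ∅ ∧ κ = (fun _ => a₀, fun _ => a₀)) ∨
      (g.image C.pt ≠ ∅ ∧ OkG F I a₀ (g.image C.pt) κ) := by
    intro g κ h
    have h1 := hC.ok g κ h
    rw [imgeq _ instDecidableEqProd C.pt g] at h1
    exact h1
  refine ⟨?_, ?_, ?_, ?_⟩
  · rintro g t ⟨κ, h, -, -⟩ x hx y hy hxy
    rcases hok g κ h with ⟨h1, -⟩ | ⟨-, h1⟩
    · have := hImg g h1
      rw [this] at hx
      simp at hx
    · refine hC.tr g κ h hx hy (h1.inj ?_ ?_ hxy)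
      · exact Finset.mem_coe.2 (Finset.mem_image_of_mem _ hx)
      · exact Finset.mem_coe.2 (Finset.mem_image_of_mem _ hy)
  · rintro g t g' ⟨κ, h, hb, rfl⟩ hsub
    have hb' : ¬ bad (g'.image C.pt) := fun hh => hb (hm _ _ hh (Finset.image_subset_image hsub))
    refine ⟨rsG I a₀ (g'.image C.pt) κ, hdn g κ g' h hsub, hb', ?_⟩
    rw [imgeq _ (instDecidableEqFin k)]
    show rse (g'.image (fun x => (C.pt x).1) ∪ I) (sel κ) = _
    by_cases hg' : g' = ∅
    · subst hg'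
      rw [Finset.image_empty, Finset.image_empty, Finset.empty_union, hr0]
      rcases hok g κ h with ⟨-, h1⟩ | ⟨-, h1⟩
      · rw [h1, hk0, ha0]
      · exact (hk _ _ h1 fun hh => hb (hA _ hh)).2
    · rw [hr _ _ (fun hh => hg' (hImg g' hh)) (fun hh => hb' (hA _ hh)), vr_image]
  · rintro g t t' ⟨κ, h, -, rfl⟩ ⟨κ', h', -, rfl⟩
    rw [hC.un g κ κ' h h']
  · rintro g t ⟨κ, h, hb, rfl⟩
    rw [imgeq _ (instDecidableEqFin k)]
    show Disjoint (g.image (fun x => (C.pt x).1)) I ∧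
      ∃ P, Mx F P ∧ rse (g.image (fun x => (C.pt x).1) ∪ I) P = sel κ
    rcases hok g κ h with ⟨h1, h2⟩ | ⟨-, h1⟩
    · have h3 := hImg g h1
      subst h3
      rw [Finset.image_empty, Finset.empty_union, h2, hk0]
      exact ⟨Finset.disjoint_empty_left _, P₀, hP₀, hP₀'⟩
    · rw [← vr_image]
      exact ⟨h1.dis, (hk _ _ h1 fun hh => hb (hA _ hh)).1⟩

theorem pf_DZS : Pool.Agent.H53.GM.T_DZS := by
  intro τ N k L F I a₀ W C h0 hC
  refine ⟨fun c => ?_, fun d => ?_⟩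
  · refine gen F I a₀ C h0 hC (fun κ => κ.1 c) hasS AS ?_ ?_ ?_ ?_ ?_ rfl
    · rintro α ⟨⟨x, hx⟩, h⟩
      refine ⟨x.1, ?_⟩
      have := h x hx
      rw [← this]
      exact hx
    · rintro α β ⟨v, hv⟩ h
      exact ⟨v, h hv⟩
    · intro α κ h1 h2
      show (rsG I a₀ α κ).1 c = _
      unfold rsG
      rw [if_neg h1]
      show (if AS α then fun _ => ∅ else fun c => rse (vr α ∪ I) (κ.1 c)) c = _
      rw [if_neg h2]
    · intro κ
      show (rsG I a₀ ∅ κ).1 c = _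
      unfold rsG
      rw [if_pos rfl]
    · intro α κ h1 h2
      exact h1.six h2 c
  · refine gen F I a₀ C h0 hC (fun κ => κ.2 d) hasZ AZ ?_ ?_ ?_ ?_ ?_ rfl
    · rintro α ⟨⟨x, hx⟩, h⟩
      refine ⟨x.1, ?_⟩
      have := h x hx
      rw [← this]
      exact hx
    · rintro α β ⟨v, hv⟩ h
      exact ⟨v, h hv⟩
    · intro α κ h1 h2
      show (rsG I a₀ α κ).2 d = _
      unfold rsG
      rw [if_neg h1]
      show (if AZ α then fun _ => ∅ else fun d => rse (vr α ∪ I) (κ.2 d)) d = _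
      rw [if_neg h2]
    · intro κ
      show (rsG I a₀ ∅ κ).2 d = _
      unfold rsG
      rw [if_pos rfl]
    · intro α κ h1 h2
      exact h1.two h2 d

end Pool.Agent.H72.GM
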